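import Mathlib

/-!
Job CQ-LOW of helper703 (by helper302), first part (after `Pool.Agent.Y461.CX.LowA`): lower bound for
the sum of `1 / m` over the squarefree products `m ≤ y` of the primes of a class.
-/

set_option autoImplicit false

open Finset Filter
open scoped Classical

namespace Pool.Agent.Y302.CQ

/-- the sets of primes of the class with product at most `y` -/
noncomputable def M1 (c : ℕ → Prop) (y : ℕ) : Finset (Finset ℕ) :=
  ((range (y + 1)).filter (fun p => p.Prime ∧ c p)).powerset.filter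
    (fun S => ∏ p ∈ S, p ≤ y)

/-- the other primes -/
noncomputable def P2 (c : ℕ → Prop) (y : ℕ) : Finset ℕ :=
  (range (y + 1)).filter (fun p => p.Prime ∧ ¬ c p)

/-- the triples -/
noncomputable def TR (c : ℕ → Prop) (y : ℕ) : Finset (ℕ × Finset ℕ × Finset ℕ) :=
  Icc 1 y ×ˢ (M1 c y ×ˢ (P2 c y).powerset)

/-- the number attached to a triple -/
def NN (t : ℕ × Finset ℕ × Finset ℕ) : ℕ :=
  t.1 ^ 2 * ((∏ p ∈ t.2.1, p) * ∏ p ∈ t.2.2, p)

theorem exists_triple (c : ℕ → Prop) (y n : ℕ) (hn : n ∈ Icc 1 y) : ∃ t ∈ TR c y, NN t = n := by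
  rw [mem_Icc] at hn
  obtain ⟨a, b, ha, hb, hab, hsq⟩ := Nat.sq_mul_squarefree_of_pos (show 0 < n by omega)
  have hprod := Nat.prod_primeFactors_of_squarefree hsq
  have hsplit : (∏ p ∈ a.primeFactors.filter (fun p => c p), p) *
      (∏ p ∈ a.primeFactors.filter (fun p => ¬ c p), p) = a := by
    rw [Finset.prod_filter_mul_prod_filter_not, hprod]
  have hale : a ≤ n := by
    rw [← hab]
    exact Nat.le_mul_of_pos_left a (by positivity)
  have hple : ∀ p ∈ a.primeFactors, p ≤ y := fun p hp =>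
    ((Nat.le_of_mem_primeFactors hp).trans hale).trans hn.2
  refine ⟨(b, a.primeFactors.filter (fun p => c p),
    a.primeFactors.filter (fun p => ¬ c p)), ?_, ?_⟩
  · simp only [TR, mem_product, M1, P2, mem_filter, mem_powerset, mem_Icc]
    refine ⟨⟨hb, ?_⟩, ⟨?_, ?_⟩, ?_⟩
    · have : b ≤ b ^ 2 * a := by
        calc b ≤ b * b := Nat.le_mul_of_pos_left b hb
          _ = b ^ 2 := by ring
          _ ≤ b ^ 2 * a := Nat.le_mul_of_pos_right _ ha
      omega
    · intro p hp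
      rw [mem_filter] at hp
      rw [mem_filter, mem_range]
      exact ⟨by have := hple p hp.1; omega, Nat.prime_of_mem_primeFactors hp.1, hp.2⟩
    · have h1 : ∏ p ∈ a.primeFactors.filter (fun p => c p), p ∣ a := Dvd.intro _ hsplit
      exact ((Nat.le_of_dvd ha h1).trans hale).trans hn.2
    · intro p hp
      rw [mem_filter] at hp
      rw [mem_filter, mem_range]
      exact ⟨by have := hple p hp.1; omega, Nat.prime_of_mem_primeFactors hp.1, hp.2⟩
  · simp only [NN]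
    rw [hsplit, hab]

theorem sum_TR (c : ℕ → Prop) (y : ℕ) : ∑ t ∈ TR c y, (1 : ℝ) / (NN t : ℝ) =
    (∑ k ∈ Icc 1 y, (1 : ℝ) / (k : ℝ) ^ 2) * ((∑ S ∈ M1 c y, (1 : ℝ) / ((∏ p ∈ S, p : ℕ) : ℝ)) *
      (∏ p ∈ P2 c y, (1 + (1 : ℝ) / p))) := by
  have e2 : (∑ S ∈ (P2 c y).powerset, (1 : ℝ) / ((∏ p ∈ S, p : ℕ) : ℝ)) =
      ∏ p ∈ P2 c y, (1 + (1 : ℝ) / p) := by
    rw [Finset.prod_one_add]
    refine Finset.sum_congr rfl fun S _ => ?_
    rw [Finset.prod_div_distrib, Finset.prod_const_one]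
    push_cast
    rfl
  rw [← e2, Finset.sum_mul_sum, Finset.sum_mul_sum]
  simp only [TR, Finset.sum_product]
  refine Finset.sum_congr rfl fun k _ => ?_
  refine Finset.sum_congr rfl fun S _ => ?_
  rw [Finset.mul_sum]
  refine Finset.sum_congr rfl fun S' _ => ?_
  simp only [NN]
  push_cast
  rw [one_div_mul_one_div, one_div_mul_one_div]

theorem harm_le (c : ℕ → Prop) (y : ℕ) :
    ∑ n ∈ Icc 1 y, (1 : ℝ) / n ≤ ∑ t ∈ TR c y, (1 : ℝ) / (NN t : ℝ) := by
  choose! φ h1 h2 using exists_triple c y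
  have hinj : Set.InjOn φ (Icc 1 y : Finset ℕ) := by
    intro a ha b hb hab
    rw [← h2 a ha, ← h2 b hb, hab]
  calc ∑ n ∈ Icc 1 y, (1 : ℝ) / n = ∑ n ∈ Icc 1 y, (1 : ℝ) / (NN (φ n) : ℝ) :=
        Finset.sum_congr rfl fun n hn => by rw [h2 n hn]
    _ = ∑ t ∈ (Icc 1 y).image φ, (1 : ℝ) / (NN t : ℝ) := by
        rw [Finset.sum_image hinj]
    _ ≤ _ := by
        refine Finset.sum_le_sum_of_subset_of_nonneg ?_ fun t _ _ => by positivity
        intro t ht
        obtain ⟨n, hn, rfl⟩ := Finset.mem_image.mp ht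
        exact h1 n hn

theorem sq_sum_le (y : ℕ) : ∑ k ∈ Icc 1 y, (1 : ℝ) / (k : ℝ) ^ 2 ≤ 2 := by
  rcases Nat.eq_zero_or_pos y with h | h
  · subst h; simp
  · have e : Icc 1 y = insert 1 (Ioc 1 y) := by
      ext k; simp only [mem_Icc, mem_insert, mem_Ioc]; omega
    rw [e, Finset.sum_insert (by simp)]
    have := sum_Ioc_inv_sq_le_sub (α := ℝ) (k := 1) (n := y) one_ne_zero h
    simp only [one_div]
    have hy : (0 : ℝ) ≤ (y : ℝ)⁻¹ := by positivity
    push_cast at this ⊢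
    simp only [inv_one] at this
    norm_num
    linarith

/-- the sum of `1 / m` is at least a constant times a power of the logarithm -/
theorem G1_lower (c : ℕ → Prop) (θ C : ℝ) (y : ℕ) (hy : 3 ≤ y)
    (hC : ∑ p ∈ P2 c y, (1 : ℝ) / p ≤ θ * Real.log (Real.log y) + C) :
    1 / 2 * Real.exp (-C) * (Real.log y) ^ (1 - θ) ≤
      ∑ S ∈ M1 c y, (1 : ℝ) / ((∏ p ∈ S, p : ℕ) : ℝ) := by
  have hy1 : (1 : ℝ) < y := by exact_mod_cast (show 1 < y by omega)
  have hlog : 0 < Real.log y := Real.log_pos hy1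
  obtain ⟨G, hG⟩ : ∃ G, G = ∑ S ∈ M1 c y, (1 : ℝ) / ((∏ p ∈ S, p : ℕ) : ℝ) := ⟨_, rfl⟩
  have hG0 : 0 ≤ G := by
    rw [hG]
    exact Finset.sum_nonneg fun S _ => by positivity
  have h1 : Real.log y ≤ ∑ n ∈ Icc 1 y, (1 : ℝ) / n := by
    have h2 := log_add_one_le_harmonic y
    have h3 : Real.log y ≤ Real.log ((y + 1 : ℕ) : ℝ) := by
      apply Real.log_le_log (by linarith)
      push_cast; linarith
    have h4 : ((harmonic y : ℚ) : ℝ) = ∑ n ∈ Icc 1 y, (1 : ℝ) / n := by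
      rw [harmonic_eq_sum_Icc]
      push_cast
      simp only [one_div]
    push_cast at h3
    push_cast at h2
    linarith
  have h5 : ∏ p ∈ P2 c y, (1 + (1 : ℝ) / p) ≤ Real.exp C * (Real.log y) ^ θ := by
    have h6 : ∏ p ∈ P2 c y, (1 + (1 : ℝ) / p) ≤ Real.exp (∑ p ∈ P2 c y, (1 : ℝ) / p) := by
      rw [Real.exp_sum]
      refine Finset.prod_le_prod (fun p _ => by positivity) fun p _ => ?_
      rw [add_comm]
      exact Real.add_one_le_exp _
    refine h6.trans ?_
    have h7 : Real.exp (∑ p ∈ P2 c y, (1 : ℝ) / p) ≤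
        Real.exp (θ * Real.log (Real.log y) + C) := Real.exp_le_exp.mpr hC
    refine h7.trans (le_of_eq ?_)
    rw [Real.exp_add, mul_comm, Real.rpow_def_of_pos hlog]
    congr 2
    ring
  have h8 := (h1.trans (harm_le c y)).trans (le_of_eq (sum_TR c y))
  rw [← hG] at h8 ⊢
  have hP0 : 0 ≤ ∏ p ∈ P2 c y, (1 + (1 : ℝ) / p) := Finset.prod_nonneg fun p _ => by positivity
  have h9 : Real.log y ≤ 2 * (G * (Real.exp C * (Real.log y) ^ θ)) := by
    refine h8.trans ?_
    apply mul_le_mul (sq_sum_le y) _ (by positivity) (by norm_num)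
    exact mul_le_mul_of_nonneg_left h5 hG0
  have hL0 : 0 < (Real.log y) ^ θ := Real.rpow_pos_of_pos hlog _
  have hLL : Real.log y = (Real.log y) ^ (1 - θ) * (Real.log y) ^ θ := by
    rw [← Real.rpow_add hlog]; norm_num
  have h10 : (Real.log y) ^ (1 - θ) ≤ 2 * (G * Real.exp C) := by
    have : (Real.log y) ^ (1 - θ) * (Real.log y) ^ θ ≤ (2 * (G * Real.exp C)) * (Real.log y) ^ θ := by
      calc (Real.log y) ^ (1 - θ) * (Real.log y) ^ θ = Real.log y := hLL.symm
        _ ≤ _ := h9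
        _ = _ := by ring
    exact le_of_mul_le_mul_right this hL0
  have hee : Real.exp (-C) * Real.exp C = 1 := by rw [← Real.exp_add]; simp
  have he0 : 0 < Real.exp (-C) := Real.exp_pos _
  calc 1 / 2 * Real.exp (-C) * (Real.log y) ^ (1 - θ) ≤
      1 / 2 * Real.exp (-C) * (2 * (G * Real.exp C)) :=
        mul_le_mul_of_nonneg_left h10 (by positivity)
    _ = (Real.exp (-C) * Real.exp C) * G := by ring
    _ = G := by rw [hee, one_mul]

end Pool.Agent.Y302.CQ
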